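import Pool.Agent.Run7.h543.DEP.Stm3
import Pool.Agent.Run7.h543.DEP.Low2

/-!
# Project DEQ (helper543): piece CMP, comparison with the volume
-/

set_option autoImplicit false
set_option linter.unusedSectionVars false

noncomputable section

namespace Pool.Agent.Run7.h722.DEQ

open Finset Matrix _root_.Run7.h543.DEP

theorem t_CMP : S_CMP := by
  intro V _ _ t w Hd _ D g k ν cν κν B U hD hg hν hcard ht hgap hw hU z φ c u hφ hu
  have hn : (0 : ℝ) < Fintype.card V := by exact_mod_cast hcard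
  set n : ℝ := (Fintype.card V : ℝ) with hndef
  -- the bilinear form
  set Q : (V → ℝ) → (V → ℝ) → ℝ := fun f h =>
    ∑ x, f x * (∑ y, lap t x y * h y + w x z / 2 * h x) with hQ
  have hQa : ∀ f h, Q f h = ∑ x, f x * (∑ y, lap t x y * h y + w x z / 2 * h x) :=
    fun f h => rfl
  have hQ2 : ∀ f h, Q f h = ∑ x, ∑ y, lap t x y * f x * h y + ∑ x, w x z / 2 * f x * h x := by
    intro f h
    rw [hQa, ← sum_add_distrib]
    refine sum_congr rfl fun x _ => ?_
    rw [mul_add, mul_sum]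
    congr 1
    · exact sum_congr rfl fun y _ => by ring
    · ring
  have hQsymm : ∀ f h, Q f h = Q h f := by
    intro f h
    rw [hQ2, hQ2]
    congr 1
    · rw [sum_comm]
      refine sum_congr rfl fun x _ => sum_congr rfl fun y _ => ?_
      rw [lap_symm ht.symm y x]; ring
    · exact sum_congr rfl fun x _ => by ring
  have hQlin : ∀ (f h : V → ℝ) (a : ℝ), Q (fun x => f x - a * h x) (fun x => f x - a * h x) =
      Q f f - 2 * a * Q h f + a ^ 2 * Q h h := by
    intro f h a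
    have e0 := hQsymm f h
    have e1 : Q (fun x => f x - a * h x) (fun x => f x - a * h x) =
        Q f f - a * Q f h - a * Q h f + a ^ 2 * Q h h := by
      simp only [hQ2, mul_add, mul_sum, ← sum_add_distrib, ← sum_sub_distrib]
      refine sum_congr rfl fun x _ => ?_
      have e2 : ∑ y, lap t x y * (f x - a * h x) * (f y - a * h y) =
          ∑ y, (lap t x y * f x * f y - a * (lap t x y * f x * h y) -
            a * (lap t x y * h x * f y) + a ^ 2 * (lap t x y * h x * h y)) :=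
        sum_congr rfl fun y _ => by ring
      rw [e2, sum_add_distrib, sum_sub_distrib, sum_sub_distrib]
      ring
    rw [e1, e0]; ring
  have hform : ∀ f : V → ℝ, ∑ x, ∑ y, t x y * (f y - f x) ^ 2 / 2 ≤ Q f f := by
    intro f
    rw [hQ2, lap_form ht.symm]
    have : 0 ≤ ∑ x, w x z / 2 * f x * f x := sum_nonneg fun x _ => by
      rw [mul_assoc]
      exact mul_nonneg (div_nonneg (hw.wnonneg _ _) (by norm_num)) (mul_self_nonneg _)
    linarith
  have hQgap : ∀ f : V → ℝ, ∑ x, f x = 0 → g * ∑ x, f x ^ 2 ≤ Q f f := fun f hf =>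
    (hgap f hf).trans (hform f)
  have hQnn : ∀ f : V → ℝ, 0 ≤ Q f f := fun f => le_trans (sum_nonneg fun x _ =>
    sum_nonneg fun y _ => div_nonneg (mul_nonneg (ht.nonneg _ _) (sq_nonneg _)) (by norm_num))
    (hform f)
  -- the function of the volume
  have hQφ : ∀ h : V → ℝ, (∀ x, Hd x z → h x = 0) → Q h φ = c / n * ∑ x, h x := by
    intro h hh
    rw [hQa, mul_sum]
    refine sum_congr rfl fun x _ => ?_
    by_cases hx : Hd x z
    · rw [hh x hx]; ring
    · rw [hφ.eq x hx]; ring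
  -- the function with mass
  set f : V → ℝ := fun x => 1 - U x z with hf
  have hfa : ∀ x, f x = 1 - U x z := fun x => rfl
  have hfH : ∀ x, Hd x z → f x = 0 := fun x hx => by rw [hfa, hU.hard x z hx, sub_self]
  have hLf : ∀ x, ∑ y, lap t x y * f y = -(lap t * U) x z := by
    intro x
    rw [Matrix.mul_apply]
    have : ∀ y, lap t x y * f y = lap t x y - lap t x y * U y z := by
      intro y; rw [hfa]; ring
    simp_rw [this]
    rw [sum_sub_distrib, lap_row, zero_sub]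
  have hQf : ∀ h : V → ℝ, (∀ x, Hd x z → h x = 0) → Q h f = ν * ∑ x, h x * U x z := by
    intro h hh
    rw [hQa, mul_sum]
    refine sum_congr rfl fun x _ => ?_
    by_cases hx : Hd x z
    · rw [hh x hx]; ring
    · rw [hLf, hfa]
      have := hU.soft x z hx
      have e : -(lap t * U) x z + w x z / 2 * (1 - U x z) = ν * U x z := by linarith
      rw [e]; ring
  have hUs := hU.total z
  have hUq := hU.sq z
  -- the values
  have hφφ : Q φ φ = c := by
    rw [hQφ φ hφ.hard, hφ.mean, ← hndef]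
    field_simp
  have hsumU : ∑ x, U x z = n * u := by
    rw [hu, ← hUs]; field_simp
  have hcνu : ν * (n * u) = cν := by rw [← hsumU, hUs]
  have hsumf : ∑ x, f x = n * (1 - u) := by
    simp_rw [hfa]
    rw [sum_sub_distrib, hsumU, sum_const, card_univ, nsmul_eq_mul, ← hndef]; ring
  have hfφ : Q f φ = c * (1 - u) := by
    rw [hQφ f hfH, hsumf]; field_simp
  have hφf : Q φ f = ν * ∑ x, φ x * U x z := hQf φ hφ.hard
  have hff : Q f f = cν - ν * κν := by
    rw [hQf f hfH, ← hUs, ← hUq, ← mul_sub, ← sum_sub_distrib]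
    congr 1
    refine sum_congr rfl fun x _ => ?_
    rw [hfa]; ring
  -- the deviation
  have hs1 : ∑ x, (φ x - 1) = 0 := by
    rw [sum_sub_distrib, hφ.mean, sum_const, card_univ, nsmul_eq_mul, mul_one, sub_self]
  have hc0 : 0 ≤ c := by rw [← hφφ]; exact hQnn φ
  have ha : g * ∑ x, (φ x - 1) ^ 2 ≤ c := by
    have e1 := hgap (fun x => φ x - 1) hs1
    have e2 : ∑ x, ∑ y, t x y * ((φ y - 1) - (φ x - 1)) ^ 2 / 2 =
        ∑ x, ∑ y, t x y * (φ y - φ x) ^ 2 / 2 :=
      sum_congr rfl fun x _ => sum_congr rfl fun y _ => by ring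
    rw [e2] at e1
    have e3 := hform φ
    rw [hφφ] at e3
    exact e1.trans e3
  have hφ2 : ∑ x, φ x ^ 2 = n + ∑ x, (φ x - 1) ^ 2 := by
    have e1 : ∑ x, (φ x - 1) ^ 2 = ∑ x, φ x ^ 2 - 2 * ∑ x, φ x + n := by
      have : ∀ x, (φ x - 1) ^ 2 = φ x ^ 2 - 2 * φ x + 1 := fun x => by ring
      simp_rw [this]
      rw [sum_add_distrib, sum_sub_distrib, ← mul_sum, sum_const, card_univ, nsmul_eq_mul,
        mul_one]
    rw [e1, hφ.mean]; ring
  set χ : V → ℝ := fun x => f x - (1 - u) * φ x with hχ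
  have hχs : ∑ x, χ x = 0 := by
    rw [hχ]
    change ∑ x, (f x - (1 - u) * φ x) = 0
    rw [sum_sub_distrib, ← mul_sum, hsumf, hφ.mean]; ring
  have hb : g * ∑ x, χ x ^ 2 ≤ cν - ν * κν - (1 - u) ^ 2 * c := by
    have e1 := hQgap χ hχs
    have e2 := hQlin f φ (1 - u)
    rw [hff, hφφ, hQsymm φ f, hfφ] at e2
    have e3 : Q χ χ = cν - ν * κν - (1 - u) ^ 2 * c := by
      rw [hχ, e2]; ring
    rw [e3] at e1
    exact e1
  have hκ : 0 ≤ ν * κν := by
    rw [← hUq]; exact mul_nonneg hν.le (sum_nonneg fun x _ => sq_nonneg _)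
  have hχ0 : 0 ≤ g * ∑ x, χ x ^ 2 := mul_nonneg hg.le (sum_nonneg fun x _ => sq_nonneg _)
  have hu2 : 0 ≤ u ^ 2 * c := mul_nonneg (sq_nonneg _) hc0
  have hb1 : (1 - 2 * u) * c ≤ cν := by
    have : (1 - u) ^ 2 * c = (1 - 2 * u) * c + u ^ 2 * c := by ring
    linarith
  have hcc : cν ≤ c + ν * ∑ x, (φ x - 1) ^ 2 := by
    have e1 := hQnn (fun x => φ x - 1 * f x)
    rw [hQlin φ f 1, hφφ, hff, hQsymm f φ, hφf] at e1
    have e2 : 0 ≤ ν * ∑ x, (φ x - f x) ^ 2 :=
      mul_nonneg hν.le (sum_nonneg fun x _ => sq_nonneg _)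
    have e3 : ∑ x, (φ x - f x) ^ 2 = ∑ x, (φ x - 1) ^ 2 + 2 * ∑ x, φ x * U x z -
        2 * ∑ x, U x z + ∑ x, U x z ^ 2 := by
      rw [mul_sum, mul_sum, ← sum_add_distrib, ← sum_sub_distrib, ← sum_add_distrib]
      refine sum_congr rfl fun x _ => ?_
      rw [hfa]; ring
    rw [e3, hUq] at e2
    have e4 : ν * (∑ x, (φ x - 1) ^ 2 + 2 * ∑ x, φ x * U x z - 2 * ∑ x, U x z + κν) =
        ν * ∑ x, (φ x - 1) ^ 2 + 2 * (ν * ∑ x, φ x * U x z) - 2 * (ν * ∑ x, U x z) +
          ν * κν := by ring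
    rw [e4, hUs] at e2
    linarith
  refine ⟨hc0, ha, hb1, hcc, ?_⟩
  -- the last inequality
  have hd1 : ∑ x, (U x z - (1 - φ x)) ^ 2 ≤ 2 * u ^ 2 * ∑ x, φ x ^ 2 + 2 * ∑ x, χ x ^ 2 := by
    rw [mul_sum, mul_sum, ← sum_add_distrib]
    refine sum_le_sum fun x _ => ?_
    have e1 : U x z - (1 - φ x) = u * φ x - χ x := by
      rw [hχ]
      change U x z - (1 - φ x) = u * φ x - (f x - (1 - u) * φ x)
      rw [hfa]; ring
    rw [e1]
    nlinarith [sq_nonneg (u * φ x + χ x)]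
  have hd2 : ∑ x, χ x ^ 2 ≤ (ν * ∑ x, (φ x - 1) ^ 2 + 2 * u * c) / g := by
    rw [le_div_iff₀ hg, mul_comm]
    have : (1 - u) ^ 2 * c = c - 2 * u * c + u ^ 2 * c := by ring
    linarith
  rw [hφ2] at hd1
  have : 2 * (ν * ∑ x, (φ x - 1) ^ 2 + 2 * u * c) / g =
      2 * ((ν * ∑ x, (φ x - 1) ^ 2 + 2 * u * c) / g) := by ring
  rw [this]
  linarith

end Pool.Agent.Run7.h722.DEQ
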