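import Pool.Agent.Run7.h543.DEP.Stm3
import Pool.Agent.Run7.h543.DEP.Low2

/-!
# Project DEQ (helper543): piece KER, the kernel with mass
-/

set_option autoImplicit false
set_option linter.unusedSectionVars false

noncomputable section

namespace Pool.Agent.Run7.h722.DEQ

open Finset Matrix _root_.Run7.h543.DEP

section ker
variable {V : Type} [Fintype V] [DecidableEq V]

/-- the Laplacian as a sum of differences -/
lemma lap_apply (t : V → V → ℝ) (f : V → ℝ) (x : V) :
    ∑ y, lap t x y * f y = ∑ y, t x y * (f x - f y) := by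
  have h : ∀ y, lap t x y * f y = (if x = y then (∑ z, t x z) * f y else 0) - t x y * f y := by
    intro y; unfold lap; split_ifs <;> ring
  simp_rw [h]
  rw [sum_sub_distrib, sum_ite_eq, if_pos (mem_univ _), sum_mul, ← sum_sub_distrib]
  exact sum_congr rfl fun y _ => by ring

/-- the Laplacian is invariant under the symmetries -/
lemma lap_perm {t : V → V → ℝ} {σ : Equiv.Perm V} (h : ∀ u v, t (σ u) (σ v) = t u v) (x y : V) :
    lap t (σ x) (σ y) = lap t x y := by
  unfold lap
  have h1 : ∑ z, t (σ x) z = ∑ z, t x z := by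
    rw [← Equiv.sum_comp σ (fun z => t (σ x) z)]
    exact sum_congr rfl fun z _ => h x z
  rw [h1, h]
  by_cases hxy : x = y
  · subst hxy; simp
  · rw [if_neg hxy, if_neg (fun e => hxy (σ.injective e))]

/-- the form is nonnegative -/
lemma form_pos {t : V → V → ℝ} {D : ℝ} (ht : IsHopping t D) (f : V → ℝ) :
    0 ≤ ∑ x, ∑ y, lap t x y * f x * f y := by
  rw [lap_form ht.symm]
  exact sum_nonneg fun x _ => sum_nonneg fun y _ =>
    div_nonneg (mul_nonneg (ht.nonneg x y) (sq_nonneg _)) (by norm_num)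

/-- uniqueness for the one-obstacle problem -/
lemma uniq {t w : V → V → ℝ} {Hd : V → V → Prop} [DecidableRel Hd] {D ν : ℝ} {k : ℕ}
    (hν : 0 < ν) (ht : IsHopping t D) (hw : IsRep w Hd k) (z : V) (f : V → ℝ)
    (h1 : ∀ x, Hd x z → f x = 0)
    (h2 : ∀ x, ¬ Hd x z → ∑ y, lap t x y * f y + ν * f x + w x z / 2 * f x = 0) :
    ∀ x, f x = 0 := by
  have h3 : ∀ x, f x * (∑ y, lap t x y * f y + ν * f x + w x z / 2 * f x) = 0 := by
    intro x
    by_cases hx : Hd x z
    · rw [h1 x hx, zero_mul]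
    · rw [h2 x hx, mul_zero]
  have h4 : ∑ x, f x * (∑ y, lap t x y * f y + ν * f x + w x z / 2 * f x) =
      ∑ x, ∑ y, lap t x y * f x * f y + ν * ∑ x, f x ^ 2 + ∑ x, w x z / 2 * f x ^ 2 := by
    rw [mul_sum, ← sum_add_distrib, ← sum_add_distrib]
    refine sum_congr rfl fun x _ => ?_
    rw [mul_add, mul_add, mul_sum]
    congr 1
    · congr 1
      · exact sum_congr rfl fun y _ => by ring
      · ring
    · ring
  rw [sum_congr rfl fun x _ => h3 x, sum_const_zero] at h4
  have h5 := form_pos ht f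
  have h6 : 0 ≤ ∑ x, w x z / 2 * f x ^ 2 := sum_nonneg fun x _ =>
    mul_nonneg (div_nonneg (hw.wnonneg x z) (by norm_num)) (sq_nonneg _)
  have h7 : ∑ x, f x ^ 2 ≤ 0 := by
    by_contra h
    push Not at h
    have := mul_pos hν h
    linarith
  have h8 : ∑ x, f x ^ 2 = 0 := le_antisymm h7 (sum_nonneg fun x _ => sq_nonneg _)
  rw [sum_eq_zero_iff_of_nonneg fun x _ => sq_nonneg _] at h8
  intro x
  exact pow_eq_zero_iff (two_ne_zero) |>.mp (h8 x (mem_univ x))

/-- the linear map of the one-obstacle problem -/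
def opM (t w : V → V → ℝ) (Hd : V → V → Prop) [DecidableRel Hd] (ν : ℝ) (z : V) :
    (V → ℝ) →ₗ[ℝ] (V → ℝ) where
  toFun f := fun x => if Hd x z then f x else
    ∑ y, lap t x y * f y + ν * f x + w x z / 2 * f x
  map_add' f h := by
    funext x
    simp only [Pi.add_apply]
    split_ifs
    · rfl
    · simp only [mul_add, sum_add_distrib]; ring
  map_smul' a f := by
    funext x
    simp only [Pi.smul_apply, smul_eq_mul, RingHom.id_apply]
    split_ifs
    · rfl
    · have : ∑ y, lap t x y * (a * f y) = a * ∑ y, lap t x y * f y := by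
        rw [mul_sum]; exact sum_congr rfl fun y _ => by ring
      rw [this]; ring

/-- existence for the one-obstacle problem -/
lemma exis {t w : V → V → ℝ} {Hd : V → V → Prop} [DecidableRel Hd] {D ν : ℝ} {k : ℕ}
    (hν : 0 < ν) (ht : IsHopping t D) (hw : IsRep w Hd k) (z : V) :
    ∃ f : V → ℝ, (∀ x, Hd x z → f x = 0) ∧
      (∀ x, ¬ Hd x z → ∑ y, lap t x y * f y + ν * f x + w x z / 2 * f x = ν) := by
  have hinj : Function.Injective (opM t w Hd ν z) := by
    rw [← LinearMap.ker_eq_bot, LinearMap.ker_eq_bot']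
    intro f hf
    funext x
    refine uniq hν ht hw z f (fun x hx => ?_) (fun x hx => ?_) x
    · have := congrFun hf x
      simpa [opM, hx] using this
    · have := congrFun hf x
      simpa [opM, hx] using this
  have hsurj := LinearMap.injective_iff_surjective.mp hinj
  obtain ⟨f, hf⟩ := hsurj (fun x => if Hd x z then 0 else ν)
  refine ⟨f, fun x hx => ?_, fun x hx => ?_⟩
  · have := congrFun hf x
    simpa [opM, hx] using this
  · have := congrFun hf x
    simpa [opM, hx] using this

/-- the maximum principle -/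
lemma bnds {t w : V → V → ℝ} {Hd : V → V → Prop} [DecidableRel Hd] {D ν : ℝ} {k : ℕ}
    (hν : 0 < ν) (ht : IsHopping t D) (hw : IsRep w Hd k) (z : V) (f : V → ℝ)
    (h1 : ∀ x, Hd x z → f x = 0)
    (h2 : ∀ x, ¬ Hd x z → ∑ y, lap t x y * f y + ν * f x + w x z / 2 * f x = ν) :
    (∀ x, 0 ≤ f x) ∧ (∀ x, f x ≤ 1) := by
  have : Nonempty V := ⟨z⟩
  constructor
  · obtain ⟨x₀, hx₀⟩ := Finite.exists_min f
    intro x
    refine le_trans ?_ (hx₀ x)
    by_contra h
    push Not at h
    have hn : ¬ Hd x₀ z := fun hh => by rw [h1 x₀ hh] at h; exact lt_irrefl _ h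
    have e := h2 x₀ hn
    rw [lap_apply] at e
    have e1 : ∑ y, t x₀ y * (f x₀ - f y) ≤ 0 := sum_nonpos fun y _ =>
      mul_nonpos_of_nonneg_of_nonpos (ht.nonneg _ _) (by have := hx₀ y; linarith)
    have e2 : ν * f x₀ < 0 := mul_neg_of_pos_of_neg hν h
    have e3 : w x₀ z / 2 * f x₀ ≤ 0 :=
      mul_nonpos_of_nonneg_of_nonpos (div_nonneg (hw.wnonneg _ _) (by norm_num)) h.le
    linarith
  · obtain ⟨x₀, hx₀⟩ := Finite.exists_max f
    intro x
    refine (hx₀ x).trans ?_
    by_contra h
    push Not at h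
    have hn : ¬ Hd x₀ z := fun hh => by
      rw [h1 x₀ hh] at h; linarith
    have e := h2 x₀ hn
    rw [lap_apply] at e
    have e1 : 0 ≤ ∑ y, t x₀ y * (f x₀ - f y) := sum_nonneg fun y _ =>
      mul_nonneg (ht.nonneg _ _) (by have := hx₀ y; linarith)
    have e2 : ν * 1 < ν * f x₀ := mul_lt_mul_of_pos_left h hν
    have e3 : 0 ≤ w x₀ z / 2 * f x₀ :=
      mul_nonneg (div_nonneg (hw.wnonneg _ _) (by norm_num)) (by linarith)
    linarith

end ker

theorem t_KER : S_KER := by
  intro V _ _ t w Hd _ D k ν hD hν ht hw hsw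
  choose φ hφ1 hφ2 using fun z => exis (V := V) hν ht hw z
  have hb := fun z => bnds hν ht hw z (φ z) (hφ1 z) (hφ2 z)
  set U : Matrix V V ℝ := fun x z => 1 - φ z x with hU
  have hUa : ∀ x z, U x z = 1 - φ z x := fun x z => rfl
  have hLU : ∀ x z, (lap t * U) x z = -∑ y, lap t x y * φ z y := by
    intro x z
    rw [Matrix.mul_apply]
    have : ∀ y, lap t x y * U y z = lap t x y - lap t x y * φ z y := by
      intro y; rw [hUa]; ring
    simp_rw [this]
    rw [sum_sub_distrib, lap_row, zero_sub]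
  have hinv : ∀ σ : Equiv.Perm V, (∀ u v, t (σ u) (σ v) = t u v) →
      (∀ u v, w (σ u) (σ v) = w u v) → (∀ u v, Hd (σ u) (σ v) ↔ Hd u v) →
      ∀ x z, U (σ x) (σ z) = U x z := by
    intro σ h1 h2 h3 x z
    have key := uniq hν ht hw z (fun x => φ (σ z) (σ x) - φ z x) (fun x hx => by
      rw [hφ1 (σ z) (σ x) ((h3 x z).mpr hx), hφ1 z x hx, sub_zero]) (fun x hx => by
      have e1 := hφ2 (σ z) (σ x) (fun hh => hx ((h3 x z).mp hh))
      have e2 := hφ2 z x hx
      rw [h2 x z] at e1
      have e3 : ∑ y, lap t (σ x) y * φ (σ z) y = ∑ y, lap t x y * φ (σ z) (σ y) := by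
        rw [← Equiv.sum_comp σ (fun y => lap t (σ x) y * φ (σ z) y)]
        exact sum_congr rfl fun y _ => by rw [lap_perm h1]
      rw [e3] at e1
      have e4 : ∑ y, lap t x y * (φ (σ z) (σ y) - φ z y) =
          ∑ y, lap t x y * φ (σ z) (σ y) - ∑ y, lap t x y * φ z y := by
        rw [← sum_sub_distrib]; exact sum_congr rfl fun y _ => by ring
      rw [e4]; linarith)
    have := key x
    rw [hUa, hUa]
    change φ (σ z) (σ x) - φ z x = 0 at this
    linarith
  have hsymm : ∀ x z, U x z = U z x := by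
    intro x z
    obtain ⟨σ, hx, hz, h1, h2, h3⟩ := hsw x z
    have := hinv σ h1 h2 h3 x z
    rw [hx, hz] at this
    exact this.symm
  have hcol : ∀ (F : ℝ → ℝ) (z z' : V), ∑ x, F (U x z) = ∑ x, F (U x z') := by
    intro F z z'
    obtain ⟨σ, hx, _, h1, h2, h3⟩ := hsw z z'
    rw [← Equiv.sum_comp σ (fun x => F (U x z'))]
    refine sum_congr rfl fun x _ => ?_
    rw [← hx, hinv σ h1 h2 h3]
  have hnn : ∀ x z, 0 ≤ U x z := fun x z => by
    rw [hUa]; have := (hb z).2 x; linarith
  have hle : ∀ x z, U x z ≤ 1 := fun x z => by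
    rw [hUa]; have := (hb z).1 x; linarith
  have hhard : ∀ x z, Hd x z → U x z = 1 := fun x z h => by
    rw [hUa, hφ1 z x h, sub_zero]
  have hsoft : ∀ x z, ¬ Hd x z → (lap t * U) x z + ν * U x z = w x z / 2 * (1 - U x z) := by
    intro x z h
    rw [hLU, hUa]
    have := hφ2 z x h
    linarith
  have hch : ∀ x z, 0 ≤ (lap t * U) x z + ν * U x z := by
    intro x z
    by_cases h : Hd x z
    · rw [hLU, lap_apply, hhard x z h, hφ1 z x h]
      have : ∑ y, t x y * (0 - φ z y) ≤ 0 := sum_nonpos fun y _ =>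
        mul_nonpos_of_nonneg_of_nonpos (ht.nonneg _ _) (by have := (hb z).1 y; linarith)
      linarith
    · rw [hsoft x z h]
      exact mul_nonneg (div_nonneg (hw.wnonneg _ _) (by norm_num))
        (by have := hle x z; linarith)
  have hchle : ∀ x z, (lap t * U) x z + ν * U x z ≤ D + ν := by
    intro x z
    rw [hLU, lap_apply]
    have e1 : -∑ y, t x y * (φ z x - φ z y) ≤ ∑ y, t x y := by
      rw [← sum_neg_distrib]
      refine sum_le_sum fun y _ => ?_
      have h1 := (hb z).1 x
      have h2 := (hb z).2 y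
      have h3 := ht.nonneg x y
      have h4 : t x y * (φ z y - φ z x) ≤ t x y * 1 :=
        mul_le_mul_of_nonneg_left (by linarith) h3
      linarith
    have e2 : ν * U x z ≤ ν * 1 := mul_le_mul_of_nonneg_left (hle x z) hν.le
    have e3 := ht.row x
    linarith
  have hsumch : ∀ z, ν * ∑ x, U x z = ∑ x, ((lap t * U) x z + ν * U x z) := by
    intro z
    rw [sum_add_distrib, ← mul_sum]
    have : ∑ x, (lap t * U) x z = 0 := by
      simp_rw [Matrix.mul_apply]
      rw [sum_comm]
      refine sum_eq_zero fun y _ => ?_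
      rw [← sum_mul]
      have : ∑ x, lap t x y = ∑ x, lap t y x := sum_congr rfl fun x _ => lap_symm ht.symm x y
      rw [this, lap_row, zero_mul]
    rw [this, zero_add]
  have hbound : ∀ z, ν * ∑ x, U x z ≤ k * (D + ν) := by
    intro z
    rw [hsumch z]
    have e1 : ∑ x, ((lap t * U) x z + ν * U x z) =
        ∑ x ∈ univ.filter (fun x => Hd z x ∨ w z x ≠ 0), ((lap t * U) x z + ν * U x z) := by
      symm
      refine sum_subset (filter_subset _ _) fun x _ hx => ?_
      rw [mem_filter, not_and, not_or] at hx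
      obtain ⟨h1, h2⟩ := hx (mem_univ x)
      rw [not_not] at h2
      rw [hsoft x z (fun hh => h1 (hw.hsymm x z hh)), hw.wsymm x z, h2]
      ring
    rw [e1]
    refine (sum_le_sum fun x _ => hchle x z).trans ?_
    rw [sum_const, nsmul_eq_mul]
    exact mul_le_mul_of_nonneg_right (by exact_mod_cast hw.size z) (by linarith)
  rcases isEmpty_or_nonempty V with hV | ⟨⟨z₀⟩⟩
  · refine ⟨0, 0, U, le_refl _, ?_, ?_⟩
    · exact mul_nonneg (Nat.cast_nonneg k) (by linarith)
    · exact ⟨hsymm, hnn, hle, fun x => (hV.false x).elim, hhard, hsoft, hch,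
        fun x => (hV.false x).elim, fun x => (hV.false x).elim⟩
  · refine ⟨ν * ∑ x, U x z₀, ∑ x, U x z₀ ^ 2, U, ?_, hbound z₀, ?_⟩
    · exact mul_nonneg hν.le (sum_nonneg fun x _ => hnn x z₀)
    · refine ⟨hsymm, hnn, hle, fun x => ?_, hhard, hsoft, hch, fun z => ?_, fun z => ?_⟩
      · rw [mul_div_cancel_left₀ _ hν.ne']
        rw [sum_congr rfl fun z _ => hsymm x z]
        exact (hcol (fun a => a) x z₀).le
      · congr 1
        exact hcol (fun a => a) z z₀
      · exact hcol (fun a => a ^ 2) z z₀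

end Pool.Agent.Run7.h722.DEQ
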